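import Pool.Agent.H91.CF.TA

/-!
All orthogonal characters of degree two, row ADNO: the densities of the types for forms of level
divisible by an odd prime.
-/

set_option autoImplicit false

open MeasureTheory Set Filter
open scoped Real

namespace Pool.Agent.H41.CF

open Pool.Agent.H31.CN Pool.Agent.H91.CF
open Pool.Agent.H96.CN (Av Per2 Per sum_crs sum_mult sum_ind)

lemma sum_blocks (s n : ℕ) (hs : 0 < s) (F G : ℤ → ℝ) (h1 : ∀ x : ℤ, F (s * x) = G x)
    (h0 : ∀ z : ℤ, ¬ (s : ℤ) ∣ z → F z = 0) :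
    ∑ i ∈ Finset.range (n * s), F (i : ℤ) = ∑ x ∈ Finset.range n, G (x : ℤ) := by
  induction n with
  | zero => simp
  | succ n ih =>
    rw [Nat.succ_mul, Finset.sum_range_add, ih, Finset.sum_range_succ]
    congr 1
    rw [Finset.sum_eq_single 0]
    · rw [← h1]
      congr 1
      push_cast
      ring
    · intro r hr hr0
      refine h0 _ fun h => ?_
      have h2 : (s : ℤ) ∣ (r : ℤ) := by
        have h3 : (s : ℤ) ∣ ((n * s : ℕ) : ℤ) := ⟨n, by push_cast; ring⟩
        have h4 := dvd_sub h h3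
        push_cast at h4
        rwa [add_sub_cancel_left] at h4
      have h3 : s ∣ r := by exact_mod_cast h2
      have h4 := Nat.le_of_dvd (Nat.pos_of_ne_zero hr0) h3
      have h5 := Finset.mem_range.1 hr
      omega
    · intro h
      exact absurd (Finset.mem_range.2 hs) h

/-- **Row ADNO.** -/
theorem pf_DNO (hTPR : T_TPR) : T_DNO := by
  classical
  clear hTPR
  intro f p A τ hf hp hp2 hpf hA hτ
  haveI : Fact p.Prime := ⟨hp⟩
  have hτ' : τ = -1 ∨ τ = 0 ∨ τ = 1 := by simpa using hτ
  have hk1 : 1 ≤ f.factorization p := hp.factorization_pos_of_dvd hf.ne' hpf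
  obtain ⟨j, hj⟩ : ∃ j, f.factorization p = j + 1 := ⟨f.factorization p - 1, by omega⟩
  obtain ⟨s, hs⟩ : ∃ s : ℕ, s = p ^ (2 * j) := ⟨_, rfl⟩
  have hn : qlp f p = p ^ 7 * s := by
    rw [qlp, if_pos hpf, hj, hs, ← pow_add]
    congr 1
    ring
  have hsq : sqp f p = (s : ℤ) := by
    rw [sqp, hj, Nat.add_sub_cancel, hs]
    push_cast
    rfl
  have hp0 : 0 < p := hp.pos
  have hs0 : 0 < s := by rw [hs]; positivity
  have hs0' : (s : ℤ) ≠ 0 := by exact_mod_cast hs0.ne'
  have hchi : ∀ x, ch p x = chi p x := by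
    intro x
    unfold ch chi
    rw [if_neg hp2, if_neg hp2]
  have hgd : ∀ x, gdp p x ↔ ¬ ((p : ℤ) ^ 2 ∣ x) := by
    intro x
    unfold gdp
    rw [if_neg hp2]
  let G : ℤ → ℝ := fun x => if gdp p x ∧ ch p x = τ then 1 else 0
  let F : ℤ → ℝ := fun z => if (s : ℤ) ∣ z ∧ gdp p (z / s) ∧ ch p (z / s) = τ then 1 else 0
  have hG : Per (p ^ 2) G := by
    intro a b h
    push_cast at h
    have h1 : gdp p a ↔ gdp p b := by
      rw [hgd, hgd, not_iff_not]
      constructor
      · intro h2
        have := dvd_sub h2 h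
        rwa [sub_sub_cancel] at this
      · intro h2
        have := dvd_add h h2
        rwa [sub_add_cancel] at this
    have h2 : ch p a = ch p b := by
      rw [hchi, hchi]
      exact Pool.Agent.H96.CN.chi_per p hp2 ((dvd_pow_self (p : ℤ) (by norm_num)).trans h)
    change (if gdp p a ∧ ch p a = τ then (1 : ℝ) else 0) = if gdp p b ∧ ch p b = τ then 1 else 0
    rw [h2]
    simp only [h1]
  have hF1 : ∀ x : ℤ, F (s * x) = G x := by
    intro x
    change (if (s : ℤ) ∣ s * x ∧ gdp p (s * x / s) ∧ ch p (s * x / s) = τ then (1 : ℝ) else 0) =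
      if gdp p x ∧ ch p x = τ then 1 else 0
    rw [Int.mul_ediv_cancel_left _ hs0']
    by_cases h : gdp p x ∧ ch p x = τ
    · rw [if_pos h, if_pos ⟨Dvd.intro _ rfl, h⟩]
    · rw [if_neg h, if_neg fun h' => h h'.2]
  have hF0 : ∀ z : ℤ, ¬ (s : ℤ) ∣ z → F z = 0 := fun z hz => if_neg fun h => hz h.1
  have hF : Per (p ^ 7 * s) F := by
    intro a b h
    obtain ⟨t, ht⟩ := h
    push_cast at ht
    by_cases ha : (s : ℤ) ∣ a
    · obtain ⟨x, rfl⟩ := ha
      obtain ⟨y, rfl⟩ : (s : ℤ) ∣ b := by
        refine ⟨x - p ^ 7 * t, ?_⟩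
        linear_combination -ht
      rw [hF1, hF1]
      refine hG x y ?_
      push_cast
      refine ⟨p ^ 5 * t, ?_⟩
      have h1 : (s : ℤ) * (x - y) = s * (p ^ 2 * (p ^ 5 * t)) := by linear_combination ht
      exact mul_left_cancel₀ hs0' h1
    · have hb : ¬ (s : ℤ) ∣ b := by
        rintro ⟨y, rfl⟩
        refine ha ⟨y + p ^ 7 * t, ?_⟩
        linear_combination ht
      rw [hF0 a ha, hF0 b hb]
  -- the sum over one period
  have hT : ∑ i ∈ Finset.range (p ^ 7 * s), F (i : ℤ) = (p : ℝ) ^ 7 * dd p τ := by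
    rw [sum_blocks s (p ^ 7) hs0 F G hF1 hF0, show p ^ 7 = p ^ 5 * p ^ 2 by ring,
      sum_mult (p ^ 2) (p ^ 5) G hG]
    have hpr : (p : ℝ) ≠ 0 := by exact_mod_cast hp0.ne'
    have h1 := sum_ind p p hp0 0
    rw [← pow_two] at h1
    have h2 := sum_ind (p ^ 2) 1 (by positivity) 0
    rw [one_mul] at h2
    have hG2 : ∑ x ∈ Finset.range (p ^ 2), G (x : ℤ) = (p : ℝ) ^ 2 * dd p τ := by
      by_cases h0 : τ = 0
      · have h3 : ∀ x ∈ Finset.range (p ^ 2), G (x : ℤ) =
            (if (p : ℤ) ∣ (x : ℤ) + 0 then (1 : ℝ) else 0) -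
              (if ((p ^ 2 : ℕ) : ℤ) ∣ (x : ℤ) + 0 then (1 : ℝ) else 0) := by
          intro x _
          change (if gdp p x ∧ ch p x = τ then (1 : ℝ) else 0) = _
          rw [add_zero, hchi, h0]
          push_cast
          by_cases h4 : (p : ℤ) ∣ (x : ℤ)
          · rw [if_pos h4, Pool.Agent.H96.CN.chi_zero p hp2 h4]
            by_cases h5 : (p : ℤ) ^ 2 ∣ (x : ℤ)
            · rw [if_pos h5, if_neg (fun h => (hgd _).1 h.1 h5)]
              ring
            · rw [if_neg h5, if_pos ⟨(hgd _).2 h5, rfl⟩]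
              ring
          · rw [if_neg h4, if_neg (fun h => h4 ((dvd_pow_self (p : ℤ) (by norm_num)).trans h)),
              if_neg]
            · ring
            · rintro ⟨-, h6⟩
              have h5 := Pool.Agent.H96.CN.chi_sq p hp2 h4
              rw [h6] at h5
              norm_num at h5
        rw [Finset.sum_congr rfl h3, Finset.sum_sub_distrib, h1, h2, h0, dd, if_pos rfl]
        field_simp
        push_cast
        ring
      · have hτ2 : τ ^ 2 = 1 := by
          rcases hτ' with h | h | h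
          · rw [h]; norm_num
          · exact absurd h h0
          · rw [h]; norm_num
        have h3 : ∀ x ∈ Finset.range (p ^ 2), G (x : ℤ) =
            (1 / 2) * (1 - (if (p : ℤ) ∣ (x : ℤ) + 0 then (1 : ℝ) else 0)) +
              (1 / 2) * τ * (chi p (x : ℤ) : ℝ) := by
          intro x _
          change (if gdp p x ∧ ch p x = τ then (1 : ℝ) else 0) = _
          rw [add_zero, hchi]
          by_cases h4 : (p : ℤ) ∣ (x : ℤ)
          · rw [if_pos h4, Pool.Agent.H96.CN.chi_zero p hp2 h4, if_neg fun h => h0 h.2.symm]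
            push_cast
            ring
          · have h5 := Pool.Agent.H96.CN.chi_sq p hp2 h4
            have h6 : ¬ (p : ℤ) ^ 2 ∣ (x : ℤ) := fun h =>
              h4 ((dvd_pow_self (p : ℤ) (by norm_num)).trans h)
            rw [if_neg h4]
            by_cases h7 : chi p (x : ℤ) = τ
            · rw [if_pos ⟨(hgd _).2 h6, h7⟩, h7]
              have h8 : (τ : ℝ) * τ = 1 := by
                have : ((τ ^ 2 : ℤ) : ℝ) = 1 := by rw [hτ2]; norm_num
                push_cast at this
                rw [← pow_two]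
                exact this
              linear_combination (-(1 / 2 : ℝ)) * h8
            · rw [if_neg fun h => h7 h.2]
              have h9 : chi p (x : ℤ) = -τ := by
                have h10 : (chi p (x : ℤ) - τ) * (chi p (x : ℤ) + τ) = 0 := by
                  linear_combination h5 - hτ2
                rcases mul_eq_zero.1 h10 with h11 | h11
                · exact absurd (by linarith) h7
                · linarith
              rw [h9]
              have h8 : (τ : ℝ) * τ = 1 := by
                have : ((τ ^ 2 : ℤ) : ℝ) = 1 := by rw [hτ2]; norm_num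
                push_cast at this
                rw [← pow_two]
                exact this
              push_cast
              linear_combination (1 / 2 : ℝ) * h8
        have h4 : ∑ x ∈ Finset.range (p ^ 2), (chi p (x : ℤ) : ℝ) = 0 := by
          have h5 := sum_mult p p (fun z : ℤ => (chi p z : ℝ)) (fun a b h => by
            beta_reduce
            rw [Pool.Agent.H96.CN.chi_per p hp2 h])
          rw [← pow_two] at h5
          refine h5.trans ?_
          beta_reduce
          rw [Pool.Agent.H96.CN.chi_sum p hp2, mul_zero]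
        rw [Finset.sum_congr rfl h3, Finset.sum_add_distrib, ← Finset.mul_sum, ← Finset.mul_sum,
          Finset.sum_sub_distrib, h1, h4, Finset.sum_const, Finset.card_range, dd, if_neg h0]
        rw [nsmul_eq_mul]
        push_cast
        field_simp
        ring
    rw [hG2]
    push_cast
    ring
  -- the inner sums
  have hinner : ∀ B : ℕ, ∑ C ∈ Finset.range (p ^ 7 * s), F (4 * A * (C : ℤ) - (B : ℤ) ^ 2) =
      (p : ℝ) ^ 7 * dd p τ := by
    intro B
    rw [← hT]
    refine sum_crs (p ^ 7 * s) (by positivity) F hF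
      (fun C => 4 * A * (C : ℤ) - (B : ℤ) ^ 2) ?_
    intro a b ha hb h
    have h1 : ((p ^ 7 * s : ℕ) : ℤ) ∣ ((4 * A : ℕ) : ℤ) * ((a : ℤ) - b) := by
      have h2 : 4 * (A : ℤ) * (a : ℤ) - (B : ℤ) ^ 2 - (4 * A * (b : ℤ) - (B : ℤ) ^ 2) =
          ((4 * A : ℕ) : ℤ) * ((a : ℤ) - b) := by
        push_cast
        ring
      rw [← h2]
      exact h
    have hcop : Nat.Coprime (p ^ 7 * s) (4 * A) := by
      rw [hs, ← pow_add]
      refine Nat.Coprime.pow_left _ ?_
      rw [Nat.Prime.coprime_iff_not_dvd hp]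
      intro h2
      rcases (Nat.Prime.dvd_mul hp).1 h2 with h3 | h3
      · have h4 : p ∣ 2 ^ 2 := by norm_num; exact h3
        exact hp2 ((Nat.prime_dvd_prime_iff_eq hp Nat.prime_two).1 (hp.dvd_of_dvd_pow h4))
      · exact hA h3
    exact Pool.Agent.H96.CN.eq_of_dvd_sub ha hb
      (IsCoprime.dvd_of_dvd_mul_left (Nat.isCoprime_iff_coprime.2 hcop) h1)
  rw [hsq, hn]
  unfold Av
  have h1 : ∑ B ∈ Finset.range (p ^ 7 * s), ∑ C ∈ Finset.range (p ^ 7 * s),
      (if (s : ℤ) ∣ 4 * A * (C : ℤ) - (B : ℤ) ^ 2 ∧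
        gdp p ((4 * A * (C : ℤ) - (B : ℤ) ^ 2) / s) ∧
        ch p ((4 * A * (C : ℤ) - (B : ℤ) ^ 2) / s) = τ then (1 : ℝ) else 0) =
      ∑ B ∈ Finset.range (p ^ 7 * s), (p : ℝ) ^ 7 * dd p τ :=
    Finset.sum_congr rfl fun B _ => hinner B
  rw [h1, Finset.sum_const, Finset.card_range, nsmul_eq_mul]
  have hpr : (p : ℝ) ≠ 0 := by exact_mod_cast hp0.ne'
  have hsr : (s : ℝ) ≠ 0 := by exact_mod_cast hs0.ne'
  push_cast
  field_simp

end Pool.Agent.H41.CF
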