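import Pool.Agent.H91.CF.TA

/-!
All orthogonal characters of degree two, row ADNT: the densities of the types for forms of even
level.
-/

set_option autoImplicit false

open MeasureTheory Set Filter
open scoped Real

namespace Pool.Agent.H41.CF

open Pool.Agent.H31.CN Pool.Agent.H91.CF
open Pool.Agent.H96.CN (Av Per2 Per sum_crs sum_mult sum_ind sum_ind_self per_dvd)

lemma cnt_lin (m t : ℕ) (hm : 0 < m) (A : ℕ) (hA : Nat.Coprime A m) (c : ℤ) :
    ∑ C ∈ Finset.range (t * m), (if (m : ℤ) ∣ (A : ℤ) * (C : ℤ) + c then (1 : ℝ) else 0) = t := by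
  have hper0 : Per m (fun z => if (m : ℤ) ∣ z + c then (1 : ℝ) else 0) := by
    intro a b h
    exact per_dvd m 1 (a + c) (b + c) (by simpa using h)
  have hper : Per m (fun z => if (m : ℤ) ∣ (A : ℤ) * z + c then (1 : ℝ) else 0) := by
    intro a b h
    refine hper0 ((A : ℤ) * a) ((A : ℤ) * b) ?_
    rw [← mul_sub]
    exact h.mul_left _
  have h1 := sum_mult m t (fun z => if (m : ℤ) ∣ (A : ℤ) * z + c then (1 : ℝ) else 0) hper
  have h2 := sum_crs m hm (fun z => if (m : ℤ) ∣ z + c then (1 : ℝ) else 0) hper0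
    (fun i => (A : ℤ) * (i : ℤ)) (by
      intro i j hi hj h
      rw [← mul_sub] at h
      have h3 : (m : ℤ) ∣ (i : ℤ) - j :=
        IsCoprime.dvd_of_dvd_mul_left (Nat.isCoprime_iff_coprime.2 hA.symm) h
      exact Pool.Agent.H96.CN.eq_of_dvd_sub hi hj h3)
  have h3 : ∑ i ∈ Finset.range m, (if (m : ℤ) ∣ (A : ℤ) * (i : ℤ) + c then (1 : ℝ) else 0) = 1 :=
    h2.trans (sum_ind_self m hm c)
  refine h1.trans ?_
  beta_reduce
  rw [h3, mul_one]

/-- the first good residue modulo 16 -/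
def r1 (τ : ℤ) : ℤ := if τ = 1 then 7 else if τ = -1 then 3 else 4

/-- the second good residue modulo 16 -/
def r2 (τ : ℤ) : ℤ := if τ = 1 then 15 else if τ = -1 then 11 else 8

lemma good_iff (x τ : ℤ) (hτ : τ = -1 ∨ τ = 0 ∨ τ = 1) :
    (gdp 2 x ∧ ch 2 x = τ) ↔ (x % 16 = r1 τ ∨ x % 16 = r2 τ) := by
  unfold gdp ch r1 r2
  rw [if_pos rfl, if_pos rfl]
  by_cases h7 : x % 8 = 7
  · rw [if_pos h7]
    rcases hτ with rfl | rfl | rfl
    · rw [if_neg (by norm_num), if_pos rfl, if_neg (by norm_num), if_pos rfl]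
      omega
    · rw [if_neg (by norm_num), if_neg (by norm_num), if_neg (by norm_num), if_neg (by norm_num)]
      omega
    · rw [if_pos rfl, if_pos rfl]
      omega
  · by_cases h3 : x % 8 = 3
    · rw [if_neg h7, if_pos h3]
      rcases hτ with rfl | rfl | rfl
      · rw [if_neg (by norm_num), if_pos rfl, if_neg (by norm_num), if_pos rfl]
        omega
      · rw [if_neg (by norm_num), if_neg (by norm_num), if_neg (by norm_num), if_neg (by norm_num)]
        omega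
      · rw [if_pos rfl, if_pos rfl]
        omega
    · rw [if_neg h7, if_neg h3]
      rcases hτ with rfl | rfl | rfl
      · rw [if_neg (by norm_num), if_pos rfl, if_neg (by norm_num), if_pos rfl]
        omega
      · rw [if_neg (by norm_num), if_neg (by norm_num), if_neg (by norm_num), if_neg (by norm_num)]
        omega
      · rw [if_pos rfl, if_pos rfl]
        omega

lemma res_iff (g E ρ : ℤ) (hg : 0 < g) (h0 : 0 ≤ ρ) (h1 : ρ < 16) :
    (g ∣ E ∧ (E / g) % 16 = ρ) ↔ 16 * g ∣ E - ρ * g := by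
  constructor
  · rintro ⟨⟨x, rfl⟩, h⟩
    rw [Int.mul_ediv_cancel_left _ hg.ne'] at h
    obtain ⟨y, hy⟩ : (16 : ℤ) ∣ x - ρ := by omega
    exact ⟨y, by linear_combination g * hy⟩
  · rintro ⟨y, hy⟩
    have h2 : E = g * (16 * y + ρ) := by linear_combination hy
    rw [h2]
    refine ⟨Dvd.intro _ rfl, ?_⟩
    rw [Int.mul_ediv_cancel_left _ hg.ne']
    omega

/-- **Row ADNT.** -/
theorem pf_DNT (hTPR : T_TPR) : T_DNT := by
  classical
  clear hTPR
  intro f A τ hf h2f hA hτ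
  have hτ' : τ = -1 ∨ τ = 0 ∨ τ = 1 := by simpa using hτ
  have hk1 : 1 ≤ f.factorization 2 := Nat.prime_two.factorization_pos_of_dvd hf.ne' h2f
  obtain ⟨k, hk⟩ : ∃ k, f.factorization 2 = k + 1 := ⟨f.factorization 2 - 1, by omega⟩
  have hn : qlp f 2 = 32 * 4 * 4 ^ k := by
    rw [qlp, if_pos h2f, hk, show 2 * (k + 1) + 5 = 7 + 2 * k by ring, pow_add, pow_mul]
    norm_num
  have hs : sqp f 2 = 4 ^ k := by
    rw [sqp, hk, Nat.add_sub_cancel, pow_mul]
    norm_num
  have hAodd : (A : ℤ) % 2 = 1 := by omega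
  rw [hs, hn]
  -- the inner sums
  have key : ∃ ve vo : ℝ, ve + vo = 64 ∧ ∀ B : ℕ,
      ∑ C ∈ Finset.range (32 * 4 * 4 ^ k), (if (4 : ℤ) ^ k ∣ 4 * A * (C : ℤ) - (B : ℤ) ^ 2 ∧
        gdp 2 ((4 * A * (C : ℤ) - (B : ℤ) ^ 2) / 4 ^ k) ∧
        ch 2 ((4 * A * (C : ℤ) - (B : ℤ) ^ 2) / 4 ^ k) = τ then (1 : ℝ) else 0) =
        ve * (if ((2 : ℕ) : ℤ) ∣ (B : ℤ) + 0 then (1 : ℝ) else 0) +
          vo * (if ((2 : ℕ) : ℤ) ∣ (B : ℤ) + 1 then (1 : ℝ) else 0) := by
    rcases Nat.eq_zero_or_pos k with h0 | h0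
    · subst h0
      have hodd : ∀ b : ℕ, ∑ C ∈ Finset.range (32 * 4 * 4 ^ 0),
          (if (4 : ℤ) ^ 0 ∣ 4 * A * (C : ℤ) - ((2 * b + 1 : ℕ) : ℤ) ^ 2 ∧
          gdp 2 ((4 * A * (C : ℤ) - ((2 * b + 1 : ℕ) : ℤ) ^ 2) / 4 ^ 0) ∧
          ch 2 ((4 * A * (C : ℤ) - ((2 * b + 1 : ℕ) : ℤ) ^ 2) / 4 ^ 0) = τ then (1 : ℝ) else 0) =
          if τ = 0 then 0 else 64 := by
        intro b
        obtain ⟨a, ha⟩ : ∃ a : ℤ, (A : ℤ) = 2 * a + 1 := ⟨A / 2, by omega⟩
        obtain ⟨w, hw⟩ : ∃ w : ℤ, (b : ℤ) * (b + 1) = 2 * w := by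
          obtain ⟨w, hw⟩ := Int.even_mul_succ_self (b : ℤ)
          exact ⟨w, by linarith⟩
        have h1 : ∀ C : ℕ, (4 * (A : ℤ) * (C : ℤ) - ((2 * b + 1 : ℕ) : ℤ) ^ 2) =
            8 * (a * C - w) + 4 * C - 1 := by
          intro C
          rw [ha]
          push_cast
          linear_combination (-4) * hw
        rcases hτ' with h | h | h
        · -- τ = -1: C odd
          have h2 := sum_ind 2 64 (by norm_num) 1
          rw [h, if_neg (by norm_num)]
          refine Eq.trans (Finset.sum_congr rfl fun C _ => ?_) h2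
          rw [h1 C, pow_zero, Int.ediv_one]
          have h3 : ((1 : ℤ) ∣ 8 * (a * C - w) + 4 * C - 1 ∧
              gdp 2 (8 * (a * C - w) + 4 * C - 1) ∧ ch 2 (8 * (a * C - w) + 4 * C - 1) = -1) ↔
              ((2 : ℕ) : ℤ) ∣ (C : ℤ) + 1 := by
            rw [good_iff _ _ (by norm_num)]
            unfold r1 r2
            norm_num
            omega
          by_cases h4 : ((2 : ℕ) : ℤ) ∣ (C : ℤ) + 1
          · rw [if_pos h4, if_pos (h3.2 h4)]
          · rw [if_neg h4, if_neg (mt h3.1 h4)]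
        · rw [h, if_pos rfl]
          refine Finset.sum_eq_zero fun C _ => ?_
          rw [h1 C, pow_zero, Int.ediv_one, if_neg]
          rintro ⟨-, h3⟩
          rw [good_iff _ _ (by norm_num)] at h3
          unfold r1 r2 at h3
          norm_num at h3
          omega
        · have h2 := sum_ind 2 64 (by norm_num) 0
          rw [h, if_neg (by norm_num)]
          refine Eq.trans (Finset.sum_congr rfl fun C _ => ?_) h2
          rw [h1 C, pow_zero, Int.ediv_one]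
          have h3 : ((1 : ℤ) ∣ 8 * (a * C - w) + 4 * C - 1 ∧
              gdp 2 (8 * (a * C - w) + 4 * C - 1) ∧ ch 2 (8 * (a * C - w) + 4 * C - 1) = 1) ↔
              ((2 : ℕ) : ℤ) ∣ (C : ℤ) + 0 := by
            rw [good_iff _ _ (by norm_num)]
            unfold r1 r2
            norm_num
            omega
          by_cases h4 : ((2 : ℕ) : ℤ) ∣ (C : ℤ) + 0
          · rw [if_pos h4, if_pos (h3.2 h4)]
          · rw [if_neg h4, if_neg (mt h3.1 h4)]
      have heven : ∀ b : ℕ, ∑ C ∈ Finset.range (32 * 4 * 4 ^ 0),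
          (if (4 : ℤ) ^ 0 ∣ 4 * A * (C : ℤ) - ((2 * b : ℕ) : ℤ) ^ 2 ∧
          gdp 2 ((4 * A * (C : ℤ) - ((2 * b : ℕ) : ℤ) ^ 2) / 4 ^ 0) ∧
          ch 2 ((4 * A * (C : ℤ) - ((2 * b : ℕ) : ℤ) ^ 2) / 4 ^ 0) = τ then (1 : ℝ) else 0) =
          if τ = 0 then 64 else 0 := by
        intro b
        have h1 : ∀ C : ℕ, (4 * (A : ℤ) * (C : ℤ) - ((2 * b : ℕ) : ℤ) ^ 2) =
            4 * ((A : ℤ) * C - (b : ℤ) ^ 2) := by
          intro C
          push_cast
          ring
        by_cases h : τ = 0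
        · rw [if_pos h, h]
          have h2 := cnt_lin 4 32 (by norm_num) A (by
            rw [show (4 : ℕ) = 2 ^ 2 by norm_num]
            exact Nat.Coprime.pow_right _ ((Nat.coprime_comm).1
              ((Nat.Prime.coprime_iff_not_dvd Nat.prime_two).2 hA))) (-(b : ℤ) ^ 2 - 1)
          have h3 := cnt_lin 4 32 (by norm_num) A (by
            rw [show (4 : ℕ) = 2 ^ 2 by norm_num]
            exact Nat.Coprime.pow_right _ ((Nat.coprime_comm).1
              ((Nat.Prime.coprime_iff_not_dvd Nat.prime_two).2 hA))) (-(b : ℤ) ^ 2 - 2)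
          have h4 : (64 : ℝ) = ((32 : ℕ) : ℝ) + ((32 : ℕ) : ℝ) := by norm_num
          rw [h4]
          refine Eq.trans ?_ (congrArg₂ (fun a b : ℝ => a + b) h2 h3)
          beta_reduce
          rw [← Finset.sum_add_distrib]
          refine Finset.sum_congr rfl fun C _ => ?_
          rw [h1 C, pow_zero, Int.ediv_one]
          have h5 : ((1 : ℤ) ∣ 4 * ((A : ℤ) * C - (b : ℤ) ^ 2) ∧
              gdp 2 (4 * ((A : ℤ) * C - (b : ℤ) ^ 2)) ∧
              ch 2 (4 * ((A : ℤ) * C - (b : ℤ) ^ 2)) = 0) ↔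
              (((A : ℤ) * C - (b : ℤ) ^ 2) % 4 = 1 ∨ ((A : ℤ) * C - (b : ℤ) ^ 2) % 4 = 2) := by
            rw [good_iff _ _ (by norm_num)]
            unfold r1 r2
            norm_num
            omega
          have h6 : (((4 : ℕ) : ℤ) ∣ (A : ℤ) * (C : ℤ) + (-(b : ℤ) ^ 2 - 1)) ↔
              ((A : ℤ) * C - (b : ℤ) ^ 2) % 4 = 1 := by
            rw [show (A : ℤ) * (C : ℤ) + (-(b : ℤ) ^ 2 - 1) = ((A : ℤ) * C - (b : ℤ) ^ 2) - 1 by
              ring]
            generalize (A : ℤ) * C - (b : ℤ) ^ 2 = x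
            push_cast
            omega
          have h7 : (((4 : ℕ) : ℤ) ∣ (A : ℤ) * (C : ℤ) + (-(b : ℤ) ^ 2 - 2)) ↔
              ((A : ℤ) * C - (b : ℤ) ^ 2) % 4 = 2 := by
            rw [show (A : ℤ) * (C : ℤ) + (-(b : ℤ) ^ 2 - 2) = ((A : ℤ) * C - (b : ℤ) ^ 2) - 2 by
              ring]
            generalize (A : ℤ) * C - (b : ℤ) ^ 2 = x
            push_cast
            omega
          by_cases h8 : ((A : ℤ) * C - (b : ℤ) ^ 2) % 4 = 1
          · rw [if_pos (h5.2 (Or.inl h8)), if_pos (h6.2 h8), if_neg (fun h => by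
              have := h7.1 h
              omega)]
            norm_num
          · by_cases h9 : ((A : ℤ) * C - (b : ℤ) ^ 2) % 4 = 2
            · rw [if_pos (h5.2 (Or.inr h9)), if_neg (mt h6.1 h8), if_pos (h7.2 h9)]
              norm_num
            · rw [if_neg (fun h => (h5.1 h).elim h8 h9), if_neg (mt h6.1 h8), if_neg (mt h7.1 h9)]
              norm_num
        · rw [if_neg h]
          refine Finset.sum_eq_zero fun C _ => ?_
          rw [h1 C, pow_zero, Int.ediv_one, if_neg]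
          rintro ⟨-, h3⟩
          rw [good_iff _ _ hτ'] at h3
          unfold r1 r2 at h3
          rcases hτ' with h4 | h4 | h4
          · rw [h4] at h3
            norm_num at h3
            omega
          · exact h h4
          · rw [h4] at h3
            norm_num at h3
            omega
      refine ⟨if τ = 0 then 64 else 0, if τ = 0 then 0 else 64, by split_ifs <;> norm_num,
        fun B => ?_⟩
      rcases Nat.even_or_odd' B with ⟨b, hb | hb⟩
      · have h1 := heven b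
        rw [← hb] at h1
        rw [h1, if_pos (show ((2 : ℕ) : ℤ) ∣ (B : ℤ) + 0 by push_cast; omega),
          if_neg (show ¬ ((2 : ℕ) : ℤ) ∣ (B : ℤ) + 1 by push_cast; omega)]
        ring
      · have h1 := hodd b
        rw [← hb] at h1
        rw [h1, if_neg (show ¬ ((2 : ℕ) : ℤ) ∣ (B : ℤ) + 0 by push_cast; omega),
          if_pos (show ((2 : ℕ) : ℤ) ∣ (B : ℤ) + 1 by push_cast; omega)]
        ring
    · obtain ⟨j, rfl⟩ : ∃ j, k = j + 1 := ⟨k - 1, by omega⟩
      refine ⟨64, 0, by norm_num, fun B => ?_⟩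
      rcases Nat.even_or_odd' B with ⟨b, hb | hb⟩
      · rw [if_pos (show ((2 : ℕ) : ℤ) ∣ (B : ℤ) + 0 by push_cast; omega),
          if_neg (show ¬ ((2 : ℕ) : ℤ) ∣ (B : ℤ) + 1 by push_cast; omega), mul_one, zero_mul,
          add_zero]
        have hcop : Nat.Coprime A (16 * 4 ^ j) := by
          rw [show 16 * 4 ^ j = 2 ^ (4 + 2 * j) by rw [pow_add, pow_mul]; norm_num]
          exact Nat.Coprime.pow_right _ ((Nat.coprime_comm).1
            ((Nat.Prime.coprime_iff_not_dvd Nat.prime_two).2 hA))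
        have h2 := cnt_lin (16 * 4 ^ j) 32 (by positivity) A hcop (-(b : ℤ) ^ 2 - r1 τ * 4 ^ j)
        have h3 := cnt_lin (16 * 4 ^ j) 32 (by positivity) A hcop (-(b : ℤ) ^ 2 - r2 τ * 4 ^ j)
        have h4 : (64 : ℝ) = ((32 : ℕ) : ℝ) + ((32 : ℕ) : ℝ) := by norm_num
        rw [h4]
        refine Eq.trans ?_ (congrArg₂ (fun a b : ℝ => a + b) h2 h3)
        beta_reduce
        rw [← Finset.sum_add_distrib,
          show 32 * 4 * 4 ^ (j + 1) = 32 * (16 * 4 ^ j) by rw [pow_succ]; ring]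
        refine Finset.sum_congr rfl fun C _ => ?_
        have h1 : (4 * (A : ℤ) * (C : ℤ) - (B : ℤ) ^ 2) =
            4 * ((A : ℤ) * C - (b : ℤ) ^ 2) := by
          rw [hb]
          push_cast
          ring
        have hg : (0 : ℤ) < 4 ^ j := by positivity
        rw [h1, show (4 : ℤ) ^ (j + 1) = 4 * 4 ^ j by rw [pow_succ]; ring,
          Int.mul_ediv_mul_of_pos _ _ (by norm_num : (0 : ℤ) < 4)]
        set E : ℤ := (A : ℤ) * C - (b : ℤ) ^ 2 with hE
        have hr1 : 0 ≤ r1 τ ∧ r1 τ < 16 := by unfold r1; split_ifs <;> norm_num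
        have hr2 : 0 ≤ r2 τ ∧ r2 τ < 16 := by unfold r2; split_ifs <;> norm_num
        have hr12 : r1 τ ≠ r2 τ := by unfold r1 r2; split_ifs <;> norm_num
        have h5 : ((4 : ℤ) * 4 ^ j ∣ 4 * E ∧ gdp 2 (E / 4 ^ j) ∧ ch 2 (E / 4 ^ j) = τ) ↔
            ((4 : ℤ) ^ j ∣ E ∧ (E / 4 ^ j) % 16 = r1 τ) ∨
              ((4 : ℤ) ^ j ∣ E ∧ (E / 4 ^ j) % 16 = r2 τ) := by
          rw [good_iff _ _ hτ', mul_dvd_mul_iff_left (by norm_num : (4 : ℤ) ≠ 0), and_or_left]
        have h6 : (((16 * 4 ^ j : ℕ) : ℤ) ∣ (A : ℤ) * (C : ℤ) + (-(b : ℤ) ^ 2 - r1 τ * 4 ^ j)) ↔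
            ((4 : ℤ) ^ j ∣ E ∧ (E / 4 ^ j) % 16 = r1 τ) := by
          rw [res_iff _ _ _ hg hr1.1 hr1.2]
          rw [show (A : ℤ) * (C : ℤ) + (-(b : ℤ) ^ 2 - r1 τ * 4 ^ j) = E - r1 τ * 4 ^ j by
            rw [hE]; ring]
          push_cast
          exact Iff.rfl
        have h7 : (((16 * 4 ^ j : ℕ) : ℤ) ∣ (A : ℤ) * (C : ℤ) + (-(b : ℤ) ^ 2 - r2 τ * 4 ^ j)) ↔
            ((4 : ℤ) ^ j ∣ E ∧ (E / 4 ^ j) % 16 = r2 τ) := by
          rw [res_iff _ _ _ hg hr2.1 hr2.2]
          rw [show (A : ℤ) * (C : ℤ) + (-(b : ℤ) ^ 2 - r2 τ * 4 ^ j) = E - r2 τ * 4 ^ j by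
            rw [hE]; ring]
          push_cast
          exact Iff.rfl
        by_cases h8 : ((4 : ℤ) ^ j ∣ E ∧ (E / 4 ^ j) % 16 = r1 τ)
        · rw [if_pos (h5.2 (Or.inl h8)), if_pos (h6.2 h8), if_neg (fun h => by
            have h9 := (h7.1 h).2
            rw [h8.2] at h9
            exact hr12 h9)]
          norm_num
        · by_cases h9 : ((4 : ℤ) ^ j ∣ E ∧ (E / 4 ^ j) % 16 = r2 τ)
          · rw [if_pos (h5.2 (Or.inr h9)), if_neg (mt h6.1 h8), if_pos (h7.2 h9)]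
            norm_num
          · rw [if_neg (fun h => (h5.1 h).elim h8 h9), if_neg (mt h6.1 h8), if_neg (mt h7.1 h9)]
            norm_num
      · rw [if_neg (show ¬ ((2 : ℕ) : ℤ) ∣ (B : ℤ) + 0 by push_cast; omega), mul_zero, zero_mul,
          add_zero]
        refine Finset.sum_eq_zero fun C _ => ?_
        rw [if_neg]
        rintro ⟨h1, -⟩
        have h2 : (4 : ℤ) ∣ 4 * (A : ℤ) * (C : ℤ) - (B : ℤ) ^ 2 :=
          (Dvd.intro_left (4 ^ j) (by rw [pow_succ])).trans h1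
        have h3 : (4 : ℤ) ∣ (B : ℤ) ^ 2 := by
          have h4 : (4 : ℤ) ∣ 4 * (A : ℤ) * (C : ℤ) := ⟨A * C, by ring⟩
          have h5 := dvd_sub h4 h2
          rwa [sub_sub_cancel] at h5
        rw [hb] at h3
        obtain ⟨y, hy⟩ := h3
        have h4 : (4 : ℤ) * (b ^ 2 + b - y) = -1 := by
          push_cast at hy
          linear_combination hy
        omega
  obtain ⟨ve, vo, hv, hkey⟩ := key
  unfold Av
  rw [Finset.sum_congr rfl fun B _ => hkey B, Finset.sum_add_distrib, ← Finset.mul_sum,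
    ← Finset.mul_sum]
  have h1 := sum_ind 2 (64 * 4 ^ k) (by norm_num) 0
  have h2 := sum_ind 2 (64 * 4 ^ k) (by norm_num) 1
  rw [show 64 * 4 ^ k * 2 = 32 * 4 * 4 ^ k by ring] at h1 h2
  rw [h1, h2, ← add_mul, hv]
  have h3 : dd 2 τ = 1 / 4 := by
    unfold dd
    split_ifs <;> norm_num
  rw [h3]
  push_cast
  have h4 : (0 : ℝ) < 4 ^ k := by positivity
  field_simp
  ring

end Pool.Agent.H41.CF
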