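import Pool.Agent.H91.CF.TA

/-!
All orthogonal characters of degree two, row ALCR: the local means at a prime which divides the
conductor.
-/

set_option autoImplicit false

open MeasureTheory Set Filter
open scoped Real

namespace Pool.Agent.H41.CF

open Pool.Agent.H31.CN Pool.Agent.H91.CF
open Pool.Agent.H96.CN (Av Per2)

lemma Av_lin (q : ℕ) (S : Finset ℤ) (c : ℤ → ℝ) (h : ℤ → ℤ → ℤ → ℝ) :
    Av q (fun B C => ∑ τ ∈ S, c τ * h τ B C) = ∑ τ ∈ S, c τ * Av q (h τ) := by
  unfold Av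
  have h1 : ∀ B ∈ Finset.range q, ∑ C ∈ Finset.range q, ∑ τ ∈ S, c τ * h τ B C =
      ∑ τ ∈ S, c τ * ∑ C ∈ Finset.range q, h τ B C := by
    intro B _
    rw [Finset.sum_comm]
    exact Finset.sum_congr rfl fun τ _ => (Finset.mul_sum _ _ _).symm
  rw [Finset.sum_congr rfl h1, Finset.sum_comm, Finset.mul_sum]
  refine Finset.sum_congr rfl fun τ _ => ?_
  rw [← Finset.mul_sum]
  ring

lemma sum_single (τ₀ : ℤ) (h : τ₀ ∈ ({-1, 0, 1} : Finset ℤ)) (c : ℤ → ℝ) :
    ∑ τ ∈ ({-1, 0, 1} : Finset ℤ), c τ * (if τ₀ = τ then (1 : ℝ) else 0) = c τ₀ := by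
  rw [Finset.sum_eq_single τ₀]
  · rw [if_pos rfl, mul_one]
  · intro b _ hb
    rw [if_neg hb.symm, mul_zero]
  · exact fun h' => absurd h h'

/-- **Row ALCR.** -/
theorem pf_LCR (hTPR : T_TPR) (hDNO : T_DNO) (hDNT : T_DNT) (hDNC : T_DNC) : T_LCR := by
  classical
  intro f p lam hf hp hpf
  have hch : ∀ x, ch p x ∈ ({-1, 0, 1} : Finset ℤ) := fun x =>
    (hTPR p x x hp (by rw [sub_self]; exact dvd_zero _)).2.2
  have hp0 : (0 : ℝ) < p := by exact_mod_cast hp.pos
  let n : ℤ → ℝ := fun τ => (npt f p τ : ℝ)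
  have hn0 : ∀ τ ∈ ({-1, 0, 1} : Finset ℤ), n τ ≠ 0 := by
    intro τ hτ
    have h1 : npt f p τ ≠ 0 := by
      have h2 := hp.two_le
      unfold npt
      split_ifs
      · omega
      · have hτ' : τ = -1 ∨ τ = 0 ∨ τ = 1 := by simpa using hτ
        omega
    change ((npt f p τ : ℤ) : ℝ) ≠ 0
    exact_mod_cast h1
  let s : ℝ := (sqp f p : ℝ)
  let E : ℕ → ℝ := fun t => if t = 0 then
      ∑ τ ∈ ({-1, 0, 1} : Finset ℤ), (lam τ * (1 - 1 / n τ)) * (dd p τ / s)
    else ∑ τ ∈ ({-1, 0, 1} : Finset ℤ), (lam τ * (-(1 / n τ))) * (((n τ - 1) / p) * (dd p τ / s))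
  let g : ℕ → ℝ := fun y => if y = 1 then 1 else if y = p then -1 else 0
  obtain ⟨hne1, hne2, hne3⟩ := Pool.Agent.H96.CN.ne_facts p hp
  have hg1 : g 1 = 1 := if_pos rfl
  have hgp : g p = -1 := by
    change (if p = 1 then (1 : ℝ) else if p = p then -1 else 0) = -1
    rw [if_neg hne1.symm, if_pos rfl]
  have hgp2 : g (p ^ 2) = 0 := by
    change (if p ^ 2 = 1 then (1 : ℝ) else if p ^ 2 = p then -1 else 0) = 0
    rw [if_neg hne2.symm, if_neg hne3.symm]
  -- the indicators
  let h : ℕ → ℤ → ℤ → ℤ → ℝ := fun A τ B C => if sqp f p ∣ 4 * A * C - B ^ 2 ∧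
      gdp p ((4 * A * C - B ^ 2) / sqp f p) ∧
      ch p ((4 * A * C - B ^ 2) / sqp f p) = τ then 1 else 0
  let h' : ℕ → ℤ → ℤ → ℤ → ℝ := fun A τ B C => if (sqp f p ∣ 4 * A * C - B ^ 2 ∧
      gdp p ((4 * A * C - B ^ 2) / sqp f p) ∧
      ch p ((4 * A * C - B ^ 2) / sqp f p) = τ) ∧ ¬ (p : ℤ) ∣ C then 1 else 0
  have hh : ∀ A : ℕ, ¬ p ∣ A → ∀ τ ∈ ({-1, 0, 1} : Finset ℤ), Av (qlp f p) (h A τ) = dd p τ / s := by
    intro A hA τ hτ
    by_cases hp2 : p = 2
    · subst hp2
      exact hDNT f A τ hf hpf hA hτ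
    · exact hDNO f p A τ hf hp hp2 hpf hA hτ
  have hh' : ∀ A : ℕ, ¬ p ∣ A → ∀ τ ∈ ({-1, 0, 1} : Finset ℤ),
      Av (qlp f p) (h' A τ) = ((n τ - 1) / p) * (dd p τ / s) := by
    intro A hA τ hτ
    rw [← hh A hA τ hτ]
    exact hDNC f p A τ hf hp hpf hA hτ
  refine ⟨fun t x => E t * (g x.1 * g x.2), ?_, ?_⟩
  · intro t ht e A he hA
    have hsum : ∑ x ∈ Ip p, (if x.1 ∣ A ∧ x.2 ∣ e then E t * (g x.1 * g x.2) else 0) =
        E t * ((if p ∣ A then 0 else 1) * (if p ∣ e then 0 else 1)) := by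
      have h1 : ∀ x ∈ Ip p, (if x.1 ∣ A ∧ x.2 ∣ e then E t * (g x.1 * g x.2) else 0) =
          E t * ((if x.1 ∣ A then g x.1 else 0) * (if x.2 ∣ e then g x.2 else 0)) := by
        intro x _
        by_cases h2 : x.1 ∣ A
        · by_cases h3 : x.2 ∣ e
          · rw [if_pos ⟨h2, h3⟩, if_pos h2, if_pos h3]
          · rw [if_neg (fun h4 => h3 h4.2), if_neg h3]
            ring
        · rw [if_neg (fun h4 => h2 h4.1), if_neg h2]
          ring
      rw [Finset.sum_congr rfl h1, ← Finset.mul_sum]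
      congr 1
      unfold Ip
      rw [Finset.sum_product]
      have h2 : ∀ m : ℕ, ∑ y ∈ ({1, p, p ^ 2} : Finset ℕ), (if y ∣ m then g y else 0) =
          if p ∣ m then 0 else 1 := by
        intro m
        rw [Pool.Agent.H96.CN.sum3 p hp, hg1, hgp, hgp2, if_pos (one_dvd m)]
        by_cases h3 : p ∣ m
        · rw [if_pos h3, if_pos h3]
          split_ifs <;> norm_num
        · rw [if_neg h3, if_neg h3]
          split_ifs <;> norm_num
      simp only [← Finset.mul_sum, ← Finset.sum_mul]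
      rw [h2, h2]
    rw [hsum]
    by_cases hA' : p ∣ A
    · have h1 : ∀ B C : ℤ, wlo f p lam t e A B C = 0 := by
        intro B C
        unfold wlo
        rw [if_pos hpf, if_neg]
        rintro ⟨-, -, -, h2, -⟩
        exact h2 hA'
      have h2 : Av (qlp f p) (wlo f p lam t e A) = 0 := by
        unfold Av
        simp only [h1, Finset.sum_const_zero, mul_zero]
      rw [h2, if_pos hA']
      ring
    · by_cases he' : p ∣ e
      · have h1 : ∀ B C : ℤ, wlo f p lam t e A B C = 0 := by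
          intro B C
          unfold wlo
          rw [if_pos hpf, if_neg]
          rintro ⟨-, -, h2, -, -⟩
          exact h2 he'
        have h2 : Av (qlp f p) (wlo f p lam t e A) = 0 := by
          unfold Av
          simp only [h1, Finset.sum_const_zero, mul_zero]
        rw [h2, if_pos he']
        ring
      · rw [if_neg hA', if_neg he', mul_one, mul_one]
        rcases Nat.le_one_iff_eq_zero_or_eq_one.1 ht with h0 | h0
        · subst h0
          have h1 : wlo f p lam 0 e A = fun B C =>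
              ∑ τ ∈ ({-1, 0, 1} : Finset ℤ), (lam τ * (1 - 1 / n τ)) * h A τ B C := by
            funext B C
            unfold wlo
            rw [if_pos hpf]
            by_cases h2 : sqp f p ∣ 4 * A * C - B ^ 2 ∧ gdp p ((4 * A * C - B ^ 2) / sqp f p)
            · rw [if_pos ⟨h2.1, h2.2, he', hA', Or.inl rfl⟩, if_pos rfl]
              have h3 := sum_single (ch p ((4 * A * C - B ^ 2) / sqp f p)) (hch _)
                (fun τ => lam τ * (1 - 1 / n τ))
              refine h3.symm.trans (Finset.sum_congr rfl fun τ _ => ?_)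
              congr 1
              change _ = if sqp f p ∣ 4 * A * C - B ^ 2 ∧
                gdp p ((4 * A * C - B ^ 2) / sqp f p) ∧
                ch p ((4 * A * C - B ^ 2) / sqp f p) = τ then (1 : ℝ) else 0
              by_cases h4 : ch p ((4 * A * C - B ^ 2) / sqp f p) = τ
              · rw [if_pos h4, if_pos ⟨h2.1, h2.2, h4⟩]
              · rw [if_neg h4, if_neg fun h5 => h4 h5.2.2]
            · rw [if_neg fun h3 => h2 ⟨h3.1, h3.2.1⟩]
              refine (Finset.sum_eq_zero fun τ _ => ?_).symm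
              rw [show h A τ B C = 0 from if_neg fun h3 => h2 ⟨h3.1, h3.2.1⟩, mul_zero]
          rw [h1, Av_lin]
          change _ = if (0 : ℕ) = 0 then _ else _
          rw [if_pos rfl]
          exact Finset.sum_congr rfl fun τ hτ => by rw [hh A hA' τ hτ]
        · subst h0
          have h1 : wlo f p lam 1 e A = fun B C =>
              ∑ τ ∈ ({-1, 0, 1} : Finset ℤ), (lam τ * (-(1 / n τ))) * h' A τ B C := by
            funext B C
            unfold wlo
            rw [if_pos hpf]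
            by_cases h2 : (sqp f p ∣ 4 * A * C - B ^ 2 ∧
                gdp p ((4 * A * C - B ^ 2) / sqp f p)) ∧ ¬ (p : ℤ) ∣ C
            · rw [if_pos ⟨h2.1.1, h2.1.2, he', hA', Or.inr h2.2⟩, if_neg one_ne_zero]
              have h3 := sum_single (ch p ((4 * A * C - B ^ 2) / sqp f p)) (hch _)
                (fun τ => lam τ * (-(1 / n τ)))
              refine h3.symm.trans (Finset.sum_congr rfl fun τ _ => ?_)
              congr 1
              change _ = if (sqp f p ∣ 4 * A * C - B ^ 2 ∧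
                gdp p ((4 * A * C - B ^ 2) / sqp f p) ∧
                ch p ((4 * A * C - B ^ 2) / sqp f p) = τ) ∧ ¬ (p : ℤ) ∣ C then (1 : ℝ) else 0
              by_cases h4 : ch p ((4 * A * C - B ^ 2) / sqp f p) = τ
              · rw [if_pos h4, if_pos ⟨⟨h2.1.1, h2.1.2, h4⟩, h2.2⟩]
              · rw [if_neg h4, if_neg fun h5 => h4 h5.1.2.2]
            · rw [if_neg fun h3 => h2 ⟨⟨h3.1, h3.2.1⟩, (h3.2.2.2.2).resolve_left one_ne_zero⟩]
              refine (Finset.sum_eq_zero fun τ _ => ?_).symm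
              rw [show h' A τ B C = 0 from if_neg fun h3 => h2 ⟨⟨h3.1.1, h3.1.2.1⟩, h3.2⟩, mul_zero]
          rw [h1, Av_lin]
          change _ = if (1 : ℕ) = 0 then _ else _
          rw [if_neg one_ne_zero]
          exact Finset.sum_congr rfl fun τ hτ => by rw [hh' A hA' τ hτ]
  · have h1 : ∀ x ∈ Ip p, (E 0 * (g x.1 * g x.2) + E 1 * (g x.1 * g x.2)) / ((x.1 : ℝ) * x.2) =
        (E 0 + E 1) * ((g x.1 / x.1) * (g x.2 / x.2)) := by
      intro x _
      rw [div_mul_div_comm]
      ring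
    rw [Finset.sum_congr rfl h1, ← Finset.mul_sum]
    have h2 : ∑ y ∈ ({1, p, p ^ 2} : Finset ℕ), g y / (y : ℝ) = 1 - 1 / (p : ℝ) := by
      rw [Pool.Agent.H96.CN.sum3 p hp, hg1, hgp, hgp2]
      push_cast
      ring
    have h3 : ∑ x ∈ Ip p, (g x.1 / (x.1 : ℝ)) * (g x.2 / (x.2 : ℝ)) = (1 - 1 / (p : ℝ)) ^ 2 := by
      unfold Ip
      rw [Finset.sum_product]
      simp only [← Finset.mul_sum, ← Finset.sum_mul]
      rw [h2]
      ring
    rw [h3]
    have h4 : E 0 + E 1 = (1 - 1 / (p : ℝ)) * ((∑ τ ∈ ({-1, 0, 1} : Finset ℤ),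
        lam τ * pit f p τ * dd p τ) / s) := by
      change (if (0 : ℕ) = 0 then _ else _) + (if (1 : ℕ) = 0 then _ else _) = _
      rw [if_pos rfl, if_neg one_ne_zero, ← Finset.sum_add_distrib, Finset.sum_div,
        Finset.mul_sum]
      refine Finset.sum_congr rfl fun τ hτ => ?_
      have h5 := hn0 τ hτ
      have h6 : pit f p τ = 1 - 1 / n τ := by
        unfold pit
        rw [if_pos hpf]
      rw [h6]
      field_simp
      ring
    rw [h4]
    ring

end Pool.Agent.H41.CF
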