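import Pool.Agent.H91.CF.TA

/-!
All orthogonal characters of degree two, row ARDF: elementary facts on the kernel of `f`.
-/

set_option autoImplicit false

open MeasureTheory Set Filter
open scoped Real

namespace Pool.Agent.H41.CF

open Pool.Agent.H31.CN Pool.Agent.H91.CF
open Pool.Agent.H96.CN (Av Per2)

lemma rd_sqf (f : ℕ) : Squarefree (rd f) ∧ (rd f).primeFactors = f.primeFactors := by
  have h1 : (rd f).primeFactors = f.primeFactors := Nat.primeFactors_prod_primeFactors f
  refine ⟨?_, h1⟩
  unfold rd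
  refine Finset.squarefree_prod_of_pairwise_isCoprime ?_ ?_
  · intro p hp q hq hpq
    have hp' := Nat.prime_of_mem_primeFactors hp
    have hq' := Nat.prime_of_mem_primeFactors hq
    exact Nat.coprime_iff_isRelPrime.1 ((Nat.coprime_primes hp' hq').2 hpq)
  · intro p hp
    exact (Nat.prime_of_mem_primeFactors hp).prime.squarefree

/-- **Row ARDF.** -/
theorem pf_RDF : T_RDF := by
  classical
  intro N f hf hN hfN
  obtain ⟨hr1, hr2⟩ := rd_sqf f
  have hr0 : rd f ≠ 0 := hr1.ne_zero
  have hrf : rd f ∣ f := Nat.prod_primeFactors_dvd f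
  have h3 : rd f * f1 f = f := Nat.mul_div_cancel' hrf
  have hf10 : f1 f ≠ 0 := by
    intro h
    rw [h, mul_zero] at h3
    omega
  have hsub : f.primeFactors ⊆ N.primeFactors := by
    intro p hp
    rw [Nat.mem_primeFactors] at hp ⊢
    exact ⟨hp.1, hfN p hp.1 hp.2.1, hN.ne_zero⟩
  have h4 : rd f ∣ N := (Nat.prod_primeFactors_dvd_iff hN.ne_zero).2 hsub
  have h5 : nf N f * rd f = N := Nat.div_mul_cancel h4
  have hsq : Squarefree (nf N f * rd f) := by rw [h5]; exact hN
  have h6 : (nf N f).Coprime (rd f) := Nat.coprime_of_squarefree_mul hsq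
  have h7 : Squarefree (nf N f) := hsq.of_mul_left
  have h8 : (nf N f).Coprime f := by
    refine Nat.coprime_of_dvd fun p hp h1 h2 => ?_
    have h9 : p ∣ rd f := by
      have : p ∈ (rd f).primeFactors := by
        rw [hr2, Nat.mem_primeFactors]
        exact ⟨hp, h2, hf.ne'⟩
      exact (Nat.mem_primeFactors.1 this).2.1
    exact hp.one_lt.ne' (Nat.dvd_one.1 (h6 ▸ Nat.dvd_gcd h1 h9))
  have h9 : (nf N f).primeFactors = N.primeFactors.filter (fun p => ¬ p ∣ f) := by
    ext p
    rw [Finset.mem_filter, Nat.mem_primeFactors, Nat.mem_primeFactors]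
    constructor
    · rintro ⟨hp, h1, h2⟩
      refine ⟨⟨hp, h1.trans ⟨rd f, h5.symm⟩, hN.ne_zero⟩, fun h10 => ?_⟩
      exact hp.one_lt.ne' (Nat.dvd_one.1 (h8 ▸ Nat.dvd_gcd h1 h10))
    · rintro ⟨⟨hp, h1, h2⟩, h10⟩
      refine ⟨hp, ?_, h7.ne_zero⟩
      rw [← h5] at h1
      rcases (Nat.Prime.dvd_mul hp).1 h1 with h | h
      · exact h
      · exact absurd (h.trans hrf) h10
  have h10 : ∀ p, p.Prime → (f1 f).factorization p = f.factorization p - 1 := by
    intro p hp
    have h11 : f.factorization p = (rd f).factorization p + (f1 f).factorization p := by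
      conv_lhs => rw [← h3]
      rw [Nat.factorization_mul hr0 hf10]
      rfl
    by_cases hpf : p ∣ f
    · have h12 : (rd f).factorization p = 1 := by
        refine le_antisymm (hr1.natFactorization_le_one p) ?_
        refine hp.factorization_pos_of_dvd hr0 ?_
        have : p ∈ (rd f).primeFactors := by
          rw [hr2, Nat.mem_primeFactors]
          exact ⟨hp, hpf, hf.ne'⟩
        exact (Nat.mem_primeFactors.1 this).2.1
      omega
    · have h12 : f.factorization p = 0 := Nat.factorization_eq_zero_of_not_dvd hpf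
      omega
  have h11 : (∏ p ∈ f.primeFactors, sqp f p) = (f1 f : ℤ) ^ 2 := by
    have h12 : f1 f = ∏ p ∈ f.primeFactors, p ^ (f1 f).factorization p := by
      conv_lhs => rw [← Nat.prod_factorization_pow_eq_self hf10]
      refine Finsupp.prod_of_support_subset _ ?_ _ fun _ _ => pow_zero _
      rw [Nat.support_factorization]
      refine Nat.primeFactors_mono ?_ hf.ne'
      exact ⟨rd f, by rw [mul_comm]; exact h3.symm⟩
    have h13 : (f1 f : ℤ) = ∏ p ∈ f.primeFactors, (p : ℤ) ^ (f1 f).factorization p := by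
      conv_lhs => rw [h12]
      push_cast
      rfl
    rw [h13, ← Finset.prod_pow]
    refine Finset.prod_congr rfl fun p hp => ?_
    rw [sqp, h10 p (Nat.prime_of_mem_primeFactors hp), ← pow_mul, mul_comm]
  have hqp : ∀ p, p.Prime → ∃ a, qlp f p = p ^ a := by
    intro p hp
    unfold qlp ql
    split_ifs with h1 h2
    · exact ⟨_, rfl⟩
    · exact ⟨5, by rw [h2]; norm_num⟩
    · exact ⟨2, rfl⟩
  refine ⟨hr1, hr2, h3, h4, h5, h8, h7, h9, h10, h11, ?_, ?_, ?_⟩
  · have h12 : rd f ∣ ∏ p ∈ f.primeFactors, qlp f p := by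
      refine Finset.prod_dvd_prod_of_dvd _ _ fun p hp => ?_
      rw [qlp, if_pos (Nat.dvd_of_mem_primeFactors hp)]
      exact dvd_pow_self _ (by omega)
    exact h12.trans (Finset.prod_dvd_prod_of_subset _ _ _ hsub)
  · refine Nat.one_le_iff_ne_zero.2 (Finset.prod_ne_zero_iff.2 fun p hp => ?_)
    have hp' := Nat.prime_of_mem_primeFactors hp
    obtain ⟨a, ha⟩ := hqp p hp'
    rw [ha]
    exact pow_ne_zero _ hp'.ne_zero
  · intro m hm
    refine Nat.Coprime.prod_left fun p hp => ?_
    have hp' := Nat.prime_of_mem_primeFactors hp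
    obtain ⟨a, ha⟩ := hqp p hp'
    rw [ha]
    refine Nat.Coprime.pow_left _ ?_
    exact (hm.symm).coprime_dvd_left (Nat.dvd_of_mem_primeFactors hp)

end Pool.Agent.H41.CF
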